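import Mathlib
import Pool.Agent.Helper91.Cyl.Algebra
import Pool.Agent.Helper91.Cyl.Bound

/-!
# Ultraproducts of ultraroots of strongly representable cylindric algebras
-/

open Pool.Agent.Helper91.Cyl

namespace Pool.Agent.Results.MP_8785fb_lc.NotUpUr

/-- For every `n ≥ 3` there is an atomic representable cylindric algebra of dimension `n` that is
not an ultraproduct of ultraroots of strongly representable atomic algebras, and not an ultraroot
of an ultraproduct of strongly representable atomic algebras either. In particular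
`UpUr SRCA_n ≠ WRCA_n`. -/
theorem result (n : ℕ) (hn : 3 ≤ n) :
    (∃ A : Alg n, A ∈ WRCA n ∧ A ∉ Up (Ur (SRCA n)) ∧ A ∉ Ur (Up (SRCA n))) ∧
      Up (Ur (SRCA n)) ≠ WRCA n := by
  obtain ⟨r, rfl⟩ : ∃ r, n = r + 1 := ⟨n - 1, by omega⟩
  have hr : 2 ≤ r := by omega
  obtain ⟨code, hcode⟩ := exists_code r
  obtain ⟨N, hN⟩ := card_bound r (by omega)
  have hphi := algA_phi hcode hr
  have hcard := algA_infinite hcode hr N
  have h1 : algA hcode hr ∈ WRCA (r + 1) :=
    ⟨algA_isCA hcode hr, algA_representable hcode hr, algA_isAtomic hcode hr⟩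
  have h2 : algA hcode hr ∉ Up (Ur (SRCA (r + 1))) := by
    rintro ⟨I, V, B, hB, π, hom, surj, ker⟩
    have e1 := (los_phi hom surj ker).1 hphi
    have e2 := (los_card surj ker N).1 hcard
    obtain ⟨i, hi1, hi2⟩ := (e1.and e2).exists
    obtain ⟨J, W, C, hC, π', hom', surj', ker'⟩ := hB i
    exact hN C hC ((los_phi hom' surj' ker').2 (Filter.Eventually.of_forall fun _ => hi1))
      ((los_card surj' ker' N).2 (Filter.Eventually.of_forall fun _ => hi2))
  have h3 : algA hcode hr ∉ Ur (Up (SRCA (r + 1))) := by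
    rintro ⟨I, V, C, ⟨J, W, B, hB, π', hom', surj', ker'⟩, π, hom, surj, ker⟩
    have e1 := (los_phi hom surj ker).2 (Filter.Eventually.of_forall fun _ => hphi)
    have e2 := (los_card surj ker N).2 (Filter.Eventually.of_forall fun _ => hcard)
    obtain ⟨j, hj1, hj2⟩ := (((los_phi hom' surj' ker').1 e1).and
      ((los_card surj' ker' N).1 e2)).exists
    exact hN (B j) (hB j) hj1 hj2
  exact ⟨⟨_, h1, h2, h3⟩, fun h => h2 (h ▸ h1)⟩

end Pool.Agent.Results.MP_8785fb_lc.NotUpUr
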